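import Pool.Agent.Helper84.OV.Zero

/-!
# Project OV (MP_57df85_nt): ORD (packet 13566)
-/

set_option autoImplicit false

namespace Pool.Agent.Helper39.OV.ORD

open Pool.Agent.Helper84.OV
open scoped Polynomial

theorem DG_C (G : R2) (F : ℤ[X]) :
    DG G (Polynomial.C F) = Polynomial.derivative G * Polynomial.C (Polynomial.derivative F) := by
  unfold DG
  rw [dX_C, Polynomial.derivative_C, mul_zero, sub_zero]

/-- `X^k` divides `X^e z` with `z(0) ≠ 0` only if `k ≤ e` -/
theorem le_of_dvd (z : PowerSeries ℚ) (hz : PowerSeries.constantCoeff z ≠ 0) (k e : ℕ)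
    (h : PowerSeries.X ^ k ∣ PowerSeries.X ^ e * z) : k ≤ e := by
  by_contra hc
  rw [not_le] at hc
  have h1 := PowerSeries.X_pow_dvd_iff.1 h e hc
  rw [PowerSeries.coeff_X_pow_mul', if_pos le_rfl, Nat.sub_self,
    PowerSeries.coeff_zero_eq_constantCoeff_apply] at h1
  exact hz h1

theorem t : S_ORD := by
  intro hR hL G p q Ψ hB hG hd hy S n k hS hn hk
  obtain ⟨N, a, b, hN, hab, hle⟩ := hR S G n hG hd hn hS
  refine (hL N p k hN ?_).trans hle
  obtain ⟨M, hM, hM2⟩ := Polynomial.exists_eq_pow_rootMultiplicity_mul_and_not_dvd N hN p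
  have hMp : M.eval p ≠ 0 := fun h => hM2 (Polynomial.dvd_iff_isRoot.2 h)
  -- the series `x`
  have hx0 : PowerSeries.constantCoeff (Ψ (Polynomial.C (Polynomial.X - Polynomial.C p))) = 0 := by
    rw [hB.ev, ev_C]; simp
  obtain ⟨y, hyx⟩ := PowerSeries.X_dvd_iff.2 hx0
  have hy0 : PowerSeries.constantCoeff y ≠ 0 := by
    have h1 := congrArg PowerSeries.constantCoeff
      (hB.der (Polynomial.C (Polynomial.X - Polynomial.C p)))
    rw [hB.ev, DG_C, map_mul, ev_C] at h1
    have h2 : PowerSeries.constantCoeff (dd (Ψ (Polynomial.C (Polynomial.X - Polynomial.C p)))) =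
        PowerSeries.constantCoeff y := by
      rw [hyx, ← PowerSeries.coeff_zero_eq_constantCoeff_apply]
      unfold dd
      rw [PowerSeries.coeff_derivative, mul_comm PowerSeries.X y,
        PowerSeries.coeff_succ_mul_X, PowerSeries.coeff_zero_eq_constantCoeff_apply]
      simp
    rw [h2] at h1
    rw [h1]
    simpa using hy
  have hfac : Ψ (Polynomial.C N) =
      PowerSeries.X ^ (N.rootMultiplicity p) * (y ^ (N.rootMultiplicity p) * Ψ (Polynomial.C M)) := by
    conv_lhs => rw [hM]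
    rw [map_mul, map_mul, map_pow, map_pow, hyx, mul_pow, mul_assoc]
  have hdvd : PowerSeries.X ^ k ∣ Ψ (Polynomial.C N) := by
    rw [hab, map_add, map_mul, map_mul, hB.zero, mul_zero, add_zero]
    exact hk.mul_left _
  rw [hfac] at hdvd
  have hke : k ≤ N.rootMultiplicity p := by
    refine le_of_dvd _ ?_ _ _ hdvd
    rw [map_mul, map_pow, hB.ev, ev_C]
    exact mul_ne_zero (pow_ne_zero _ hy0) (Int.cast_ne_zero.2 hMp)
  exact (pow_dvd_pow _ hke).trans (Dvd.intro _ hM.symm)

end Pool.Agent.Helper39.OV.ORD
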